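import Pool.Agent.Helper91.MC9.Ext
import Pool.Agent.Helper53.MC9.BLK
import Pool.Agent.Helper9.MC9.CONT
import Pool.Agent.Helper24.MC9.CONE
import Pool.Agent.Helper24.MC9.COPE
import Pool.Agent.Helper71.MC9.COPF
import Pool.Agent.Helper74.MC9.EMB
import Pool.Agent.Helper24.MC9.ESET
import Pool.Agent.Helper43.MC9.FEK
import Pool.Agent.Helper59.MC9.KT
import Pool.Agent.Helper74.MC9.LIM
import Pool.Agent.Helper98.MC9.LIN
import Pool.Agent.Helper24.MC9.MUL
import Pool.Agent.Helper42.MC9.NBR
import Pool.Agent.Helper96.MC9.NEW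
import Pool.Agent.Helper61.MC9.PAIR
import Pool.Agent.Helper56.MC9.QUO
import Pool.Agent.Helper91.MC9P.SPLIT
import Pool.Agent.Helper91.MC9P.CLQ
import Pool.Agent.Helper91.MC9P.SAT
import Pool.Agent.Helper43.MC9.STEP
import Pool.Agent.Helper98.MC9.SUMF
import Pool.Agent.Helper54.MC9.SUP
import Pool.Agent.Helper42.MC9.TRANS
import Pool.Agent.Helper54.MC9.UNQ

/-!
# MP_9d78a0_co: the normalised gap converges for connected excluded minors

Let `ℋ` be a nonempty family of graphs, each with an edge, such that the class of the finite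
`ℋ`-free graphs is closed under disjoint unions (for example: every member of `ℋ` is connected).
Then `M⁺(n)/n`, `M⁻(n)/n` and `gap(n)/n` converge.

Proof of the convergence of `M⁻(n)/n`.  Take `m` disjoint copies of an edge-maximal graph `G` on
`n` vertices with `M⁻(n)` edges and add edges until the graph is edge-maximal.  Non-edges of `G` are
blocked, so a new edge joins two copies of the same component `C` of `G`, and `C` is isomorphic to
no other component of `G`.  The ends of the new edges between two copies of `C` form cliques, and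
the quotient graph on the copies of `C` is `ℋ`-free, so there are at most `K m` new edges for
each `C`, and there are at most `n/s + N(s)` components `C` of this kind for every `s`.
-/

set_option autoImplicit false

namespace Pool.Agent.Results.MP_9d78a0_co.UnionClosedClasses

open SimpleGraph Filter Topology Pool.Agent.Helper91.MC9

theorem hTRANS : S_TRANS := Pool.Agent.Helper42.MC9.TRANS.main
theorem hEMB : S_EMB := Pool.Agent.Helper74.MC9.EMB.main
theorem hCLQ : S_CLQ := Pool.Agent.Helper91.MC9P.CLQ.main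
theorem hSAT : S_SAT := Pool.Agent.Helper91.MC9P.SAT.main
theorem hSPLIT : S_SPLIT := Pool.Agent.Helper91.MC9P.SPLIT.main
theorem hESET : S_ESET := Pool.Agent.Helper24.MC9.ESET.main hSAT
theorem hSUMF : S_SUMF := Pool.Agent.Helper98.MC9.SUMF.main hSPLIT hEMB
theorem hCOPF : S_COPF := Pool.Agent.Helper71.MC9.COPF.main hSPLIT hEMB
theorem hKT : S_KT :=
  Pool.Agent.Helper59.MC9.KT.main Pool.Agent.Helper9.MC9.CONT.main
    Pool.Agent.Helper24.MC9.CONE.main hTRANS
theorem hLIN : S_LIN := Pool.Agent.Helper98.MC9.LIN.main hKT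
theorem hNBR : S_NBR := Pool.Agent.Helper42.MC9.NBR.main
theorem hPAIR : S_PAIR := Pool.Agent.Helper61.MC9.PAIR.main hNBR hCLQ
theorem hNEW : S_NEW :=
  Pool.Agent.Helper96.MC9.NEW.main (Pool.Agent.Helper53.MC9.BLK.main hEMB)
    Pool.Agent.Helper56.MC9.QUO.main hLIN hPAIR Pool.Agent.Helper24.MC9.COPE.main
theorem hMUL : S_MUL :=
  Pool.Agent.Helper24.MC9.MUL.main hESET hCOPF hSAT hNEW Pool.Agent.Helper54.MC9.UNQ.main
theorem hSTEP : S_STEP := Pool.Agent.Helper43.MC9.STEP.main hEMB hCLQ hSAT hESET hSUMF hNBR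
theorem hSUP : S_SUP := Pool.Agent.Helper54.MC9.SUP.main hESET hSUMF hSAT

/-- If the class of the finite `ℋ`-free graphs is closed under disjoint unions, in particular if all
the members of `ℋ` are connected, then `M⁺(n)/n`, `M⁻(n)/n` and `gap(n)/n` converge. -/
theorem result (ℋ : Set (Σ m, SimpleGraph (Fin m))) (hs : Suitable ℋ) :
    (ConnFam ℋ → UnionClosed ℋ) ∧
    (UnionClosed ℋ → ∃ L1 L2 : ℝ,
      Tendsto (fun n => (Mmax ℋ n : ℝ) / n) atTop (𝓝 L1) ∧
      Tendsto (fun n => (Mmin ℋ n : ℝ) / n) atTop (𝓝 L2) ∧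
      Tendsto (fun n => (gap ℋ n : ℝ) / n) atTop (𝓝 (L1 - L2))) := by
  refine ⟨fun hc V V' _ _ G G' h h' => hSUMF ℋ hc V V' G G' h h', fun hu => ?_⟩
  exact ext_main hTRANS hEMB hSUP Pool.Agent.Helper43.MC9.FEK.main hLIN hESET hMUL hSTEP
    Pool.Agent.Helper74.MC9.LIM.main ℋ hs hu

end Pool.Agent.Results.MP_9d78a0_co.UnionClosedClasses
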